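import Mathlib

/-!
# Koksma's inequality for the Sato-Tate measure
-/

set_option autoImplicit false

open MeasureTheory Set Filter Topology

namespace Pool.Agent.TH574.TX

/-- the distribution function of the Sato-Tate measure on `[0, 1]` -/
noncomputable def stF (w : ℝ) : ℝ := w - Real.sin (2 * Real.pi * w) / (2 * Real.pi)

/-- the test function -/
noncomputable def ff (m : ℕ) (x : ℝ) : ℝ :=
  ∑ i ∈ Finset.range (m + 1), Real.cos ((((m : ℝ) - 2 * i)) * (Real.pi * x))

/-- its derivative -/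
noncomputable def hh (m : ℕ) (x : ℝ) : ℝ :=
  ∑ i ∈ Finset.range (m + 1),
    -Real.sin ((((m : ℝ) - 2 * i)) * (Real.pi * x)) * (((m : ℝ) - 2 * i) * Real.pi)

lemma hasDerivAt_ff (m : ℕ) (x : ℝ) : HasDerivAt (ff m) (hh m x) x := by
  unfold ff hh
  refine HasDerivAt.fun_sum fun i _ => ?_
  have h1 : HasDerivAt (fun x : ℝ => ((m : ℝ) - 2 * i) * (Real.pi * x))
      (((m : ℝ) - 2 * i) * Real.pi) x := by
    have := ((hasDerivAt_id x).const_mul Real.pi).const_mul ((m : ℝ) - 2 * i)
    simpa using this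
  exact h1.cos

lemma continuous_hh (m : ℕ) : Continuous (hh m) := by
  unfold hh
  fun_prop

lemma continuous_ff (m : ℕ) : Continuous (ff m) := by
  unfold ff
  fun_prop

lemma hasDerivAt_stF (x : ℝ) : HasDerivAt stF (1 - Real.cos (2 * Real.pi * x)) x := by
  unfold stF
  have h1 : HasDerivAt (fun x : ℝ => 2 * Real.pi * x) (2 * Real.pi) x := by
    simpa using (hasDerivAt_id x).const_mul (2 * Real.pi)
  have h2 := h1.sin.div_const (2 * Real.pi)
  have h3 := (hasDerivAt_id x).sub h2
  have e : Real.cos (2 * Real.pi * x) * (2 * Real.pi) / (2 * Real.pi) =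
      Real.cos (2 * Real.pi * x) := by
    rw [mul_div_assoc, div_self (by positivity), mul_one]
  rw [e] at h3
  exact h3

lemma continuous_stF : Continuous stF := by
  unfold stF
  fun_prop

lemma key (m : ℝ) (t : ℝ) (n : ℕ) :
    (1 - Real.cos (2 * t)) * ∑ i ∈ Finset.range (n + 1), Real.cos ((m - 2 * i) * t) =
      (Real.cos (m * t) - Real.cos ((m + 2) * t) + Real.cos ((m - 2 * n) * t) -
        Real.cos ((m - 2 * n - 2) * t)) / 2 := by
  have prod : ∀ a : ℝ, Real.cos (2 * t) * Real.cos (a * t) =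
      (Real.cos ((a + 2) * t) + Real.cos ((a - 2) * t)) / 2 := by
    intro a
    have h1 : (a + 2) * t = a * t + 2 * t := by ring
    have h2 : (a - 2) * t = a * t - 2 * t := by ring
    rw [h1, h2, Real.cos_add, Real.cos_sub]
    ring
  have prod' : ∀ a : ℝ, (1 - Real.cos (2 * t)) * Real.cos (a * t) =
      Real.cos (a * t) - (Real.cos ((a + 2) * t) + Real.cos ((a - 2) * t)) / 2 := by
    intro a
    rw [sub_mul, one_mul, prod]
  induction n with
  | zero =>
    rw [Finset.sum_range_one, prod']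
    simp only [Nat.cast_zero, mul_zero, sub_zero]
    ring
  | succ n ih =>
    rw [Finset.sum_range_succ, mul_add, ih, prod']
    have h1 : m - 2 * ((n + 1 : ℕ) : ℝ) + 2 = m - 2 * n := by push_cast; ring
    have h2 : m - 2 * ((n + 1 : ℕ) : ℝ) = m - 2 * n - 2 := by push_cast; ring
    rw [h1, h2]
    ring

lemma int_cos (k : ℕ) (hk : 1 ≤ k) : ∫ w in (0 : ℝ)..1, Real.cos (k * (Real.pi * w)) = 0 := by
  have h1 : ∀ w : ℝ, (k : ℝ) * (Real.pi * w) = (k * Real.pi) * w := fun w => by ring
  simp only [h1]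
  have hk0 : (k : ℝ) * Real.pi ≠ 0 := by
    have : (0 : ℝ) < k := by exact_mod_cast hk
    positivity
  rw [intervalIntegral.integral_comp_mul_left (fun x => Real.cos x) hk0, integral_cos, mul_one,
    mul_zero, Real.sin_nat_mul_pi, Real.sin_zero, sub_zero, smul_zero]

lemma int_zero (m : ℕ) (hm : 1 ≤ m) :
    ∫ w in (0 : ℝ)..1, (1 - Real.cos (2 * Real.pi * w)) * ff m w = 0 := by
  have h1 : ∀ w : ℝ, (1 - Real.cos (2 * Real.pi * w)) * ff m w =
      Real.cos ((m : ℕ) * (Real.pi * w)) - Real.cos ((m + 2 : ℕ) * (Real.pi * w)) := by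
    intro w
    unfold ff
    have h2 := key m (Real.pi * w) m
    rw [← mul_assoc] at h2
    rw [h2]
    have h3 : ((m : ℝ) - 2 * m) * (Real.pi * w) = -(m * (Real.pi * w)) := by ring
    have h4 : ((m : ℝ) - 2 * m - 2) * (Real.pi * w) = -(((m : ℝ) + 2) * (Real.pi * w)) := by ring
    rw [h3, h4, Real.cos_neg, Real.cos_neg]
    push_cast
    ring
  simp only [h1]
  rw [intervalIntegral.integral_sub, int_cos m hm, int_cos (m + 2) (by omega), sub_zero]
  · exact Continuous.intervalIntegrable (by fun_prop) _ _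
  · exact Continuous.intervalIntegrable (by fun_prop) _ _

lemma int_st (m : ℕ) (hm : 1 ≤ m) : ∫ w in (0 : ℝ)..1, stF w * hh m w = ff m 1 := by
  have h1 := intervalIntegral.integral_mul_deriv_eq_deriv_mul (a := 0) (b := 1)
    (u := stF) (v := ff m) (u' := fun w => 1 - Real.cos (2 * Real.pi * w)) (v' := hh m)
    (fun x _ => hasDerivAt_stF x) (fun x _ => hasDerivAt_ff m x)
    (Continuous.intervalIntegrable (by fun_prop) _ _)
    ((continuous_hh m).intervalIntegrable _ _)
  rw [h1, int_zero m hm]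
  have h2 : stF 1 = 1 := by
    unfold stF
    rw [mul_one, Real.sin_two_pi, zero_div, sub_zero]
  have h3 : stF 0 = 0 := by
    unfold stF
    simp
  rw [h2, h3]
  ring

lemma ff_eq (m : ℕ) {x : ℝ} (h0 : 0 ≤ x) (h1 : x ≤ 1) :
    ff m x = ff m 1 - ∫ w in (0 : ℝ)..1, (if x < w then hh m w else 0) := by
  have hi : IntervalIntegrable (fun w => if x < w then hh m w else 0) volume 0 1 := by
    have h2 := ((continuous_hh m).intervalIntegrable (μ := volume) 0 1)
    rw [intervalIntegrable_iff] at h2 ⊢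
    have h3 : (fun w => if x < w then hh m w else 0) = (Ioi x).indicator (hh m) := by
      funext w
      by_cases hw : x < w
      · rw [if_pos hw, indicator_of_mem (show w ∈ Ioi x from hw)]
      · rw [if_neg hw, indicator_of_notMem (show w ∉ Ioi x from hw)]
    rw [h3]
    exact Integrable.indicator h2 measurableSet_Ioi
  have hs0 : IntervalIntegrable (fun w => if x < w then hh m w else 0) volume 0 x :=
    hi.mono_set (by rw [uIcc_of_le h0, uIcc_of_le zero_le_one]; exact Icc_subset_Icc_right h1)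
  have hs1 : IntervalIntegrable (fun w => if x < w then hh m w else 0) volume x 1 :=
    hi.mono_set (by rw [uIcc_of_le h1, uIcc_of_le zero_le_one]; exact Icc_subset_Icc_left h0)
  rw [← intervalIntegral.integral_add_adjacent_intervals hs0 hs1]
  have e0 : ∫ w in (0 : ℝ)..x, (if x < w then hh m w else 0) = ∫ w in (0 : ℝ)..x, (0 : ℝ) := by
    refine intervalIntegral.integral_congr_ae (ae_of_all _ fun w hw => ?_)
    rw [uIoc_of_le h0] at hw
    exact if_neg (not_lt.2 hw.2)
  have e1 : ∫ w in x..1, (if x < w then hh m w else 0) = ∫ w in x..1, hh m w := by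
    refine intervalIntegral.integral_congr_ae (ae_of_all _ fun w hw => ?_)
    rw [uIoc_of_le h1] at hw
    exact if_pos hw.1
  rw [e0, e1, intervalIntegral.integral_zero, zero_add,
    intervalIntegral.integral_eq_sub_of_hasDerivAt (fun w _ => hasDerivAt_ff m w)
      ((continuous_hh m).intervalIntegrable _ _)]
  ring

theorem t_koksma (m : ℕ) (hm : 1 ≤ m) : ∃ C : ℝ, 0 < C ∧ ∀ (J : Finset ℕ) (x : ℕ → ℝ),
    (∀ j ∈ J, 0 ≤ x j ∧ x j ≤ 1) → ∀ D : ℝ,
    (∀ w : ℝ, 0 ≤ w → w ≤ 1 → |((J.filter (fun j => x j < w)).card : ℝ) - J.card * stF w| ≤ D) →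
    |∑ j ∈ J, ∑ i ∈ Finset.range (m + 1), Real.cos ((((m : ℝ) - 2 * i)) * (Real.pi * x j))| ≤
      C * D := by
  obtain ⟨C0, hC0⟩ : ∃ C0 : ℝ, ∀ w ∈ Icc (0 : ℝ) 1, ‖hh m w‖ ≤ C0 :=
    isCompact_Icc.exists_bound_of_continuousOn (continuous_hh m).continuousOn
  have hC00 : 0 ≤ C0 := (norm_nonneg _).trans (hC0 0 ⟨le_rfl, zero_le_one⟩)
  refine ⟨C0 + 1, by linarith, fun J x hx D hD => ?_⟩
  have hD0 : 0 ≤ D := (abs_nonneg _).trans (hD 0 le_rfl zero_le_one)
  have hi : ∀ j ∈ J, IntervalIntegrable (fun w => if x j < w then hh m w else 0) volume 0 1 := by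
    intro j _
    have h2 := ((continuous_hh m).intervalIntegrable (μ := volume) 0 1)
    rw [intervalIntegrable_iff] at h2 ⊢
    have h3 : (fun w => if x j < w then hh m w else 0) = (Ioi (x j)).indicator (hh m) := by
      funext w
      by_cases hw : x j < w
      · rw [if_pos hw, indicator_of_mem (show w ∈ Ioi (x j) from hw)]
      · rw [if_neg hw, indicator_of_notMem (show w ∉ Ioi (x j) from hw)]
    rw [h3]
    exact Integrable.indicator h2 measurableSet_Ioi
  have h1 : ∑ j ∈ J, ∑ i ∈ Finset.range (m + 1), Real.cos ((((m : ℝ) - 2 * i)) * (Real.pi * x j)) =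
      -∫ w in (0 : ℝ)..1, (((J.filter (fun j => x j < w)).card : ℝ) - J.card * stF w) * hh m w := by
    have e1 : ∀ w : ℝ, (((J.filter (fun j => x j < w)).card : ℝ) - J.card * stF w) * hh m w =
        (∑ j ∈ J, (if x j < w then hh m w else 0)) - J.card * (stF w * hh m w) := by
      intro w
      rw [← Finset.sum_filter, Finset.sum_const, nsmul_eq_mul]
      ring
    simp only [e1]
    rw [intervalIntegral.integral_sub, intervalIntegral.integral_finsetSum hi,
      intervalIntegral.integral_const_mul, int_st m hm]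
    · have e2 : ∀ j ∈ J, ∑ i ∈ Finset.range (m + 1),
          Real.cos ((((m : ℝ) - 2 * i)) * (Real.pi * x j)) =
          ff m 1 - ∫ w in (0 : ℝ)..1, (if x j < w then hh m w else 0) := fun j hj =>
        ff_eq m (hx j hj).1 (hx j hj).2
      rw [Finset.sum_congr rfl e2, Finset.sum_sub_distrib, Finset.sum_const, nsmul_eq_mul]
      ring
    · have h := IntervalIntegrable.sum J hi
      rwa [Finset.sum_fn] at h
    · exact (Continuous.intervalIntegrable
        (continuous_const.mul (continuous_stF.mul (continuous_hh m))) _ _)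
  rw [h1, abs_neg]
  have h2 : ‖∫ w in (0 : ℝ)..1, (((J.filter (fun j => x j < w)).card : ℝ) - J.card * stF w) *
      hh m w‖ ≤ D * C0 * |1 - 0| := by
    refine intervalIntegral.norm_integral_le_of_norm_le_const fun w hw => ?_
    rw [uIoc_of_le zero_le_one] at hw
    rw [norm_mul]
    exact mul_le_mul (hD w hw.1.le hw.2) (hC0 w ⟨hw.1.le, hw.2⟩) (norm_nonneg _) hD0
  rw [Real.norm_eq_abs, sub_zero, abs_one, mul_one] at h2
  nlinarith

end Pool.Agent.TH574.TX
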